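import Pool.Agent.Lib.MP_c7af3c_ag.T2C.H6.Kro2
import Pool.Agent.Lib.MP_c7af3c_ag.T2.Iface
import Pool.Agent.Lib.MP_c7af3c_ag.T2C.H75.W2

/-!
# MP_c7af3c_ag, project T2C, row BETA, sub-row KRO: sizes, and the statement (helper6)
-/

set_option autoImplicit false

namespace Pool.Agent.T2C.H6

open MvPolynomial Module Pool.Agent.Gen Pool.Agent.Sharp Pool.Agent.Edge
open Pool.Agent.T2 (Fk Rac lnf Sizes Sit)

variable {K : Type} [Field K] {n c : ℕ} {d : Fin c → ℕ} {D : DSys K n c d}
  {x : Fin (n + 1) → K} {j0 : Fin (n + 1)}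
  {t : Fin (2 + 1) → Fin (n + 1)} {P : Fin (2 + 1) → Fin (n + 1) → K}

/-! ### the determinant -/

/-- the determinant and linear combinations of the columns -/
theorem dt_comb (ε : (Unit ⊕ (Fin 0 ⊕ Fin 3)) ⊕ Fin c ≃ Fin (n + 1))
    (η : Fin 0 → Fin (n + 1) → K) (u w : Fin 3 → Fin (n + 1) → K) (T : Matrix (Fin 3) (Fin 3) K)
    (h : ∀ b, w b = ∑ c, T b c • u c) : dt D x j0 ε η w = T.det * dt D x j0 ε η u := by
  classical
  set T' : Matrix ((Unit ⊕ (Fin 0 ⊕ Fin 3)) ⊕ Fin c) ((Unit ⊕ (Fin 0 ⊕ Fin 3)) ⊕ Fin c) K :=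
    Matrix.fromBlocks (Matrix.fromBlocks 1 0 0 (Matrix.fromBlocks 1 0 0 T.transpose)) 0 0 1
    with hT'
  have hdet : T'.det = T.det := by
    rw [hT', Matrix.det_fromBlocks_zero₂₁, Matrix.det_fromBlocks_zero₂₁,
      Matrix.det_fromBlocks_zero₂₁, Matrix.det_one, Matrix.det_one, Matrix.det_one,
      Matrix.det_transpose]
    ring
  unfold dt
  rw [← hdet, mul_comm, ← Matrix.det_mul]
  congr 1
  ext a k
  rw [Matrix.mul_apply, Matrix.of_apply]
  rcases k with (k | (k | k)) | k
  · simp [hT', Fintype.sum_sum_type, colU]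
  · exact k.elim0
  · simp [hT', Fintype.sum_sum_type, colU, h k, mul_comm]
  · simp [hT', Fintype.sum_sum_type, colU, Matrix.one_apply]

theorem det_sq (c0 c1 d0 d1 β : K) :
    (!![β * (c0 * c0), β * (c0 * c1 + c1 * c0), β * (c1 * c1);
      β * (c0 * d0), β * (c0 * d1 + c1 * d0), β * (c1 * d1);
      β * (d0 * d0), β * (d0 * d1 + d1 * d0), β * (d1 * d1)] : Matrix (Fin 3) (Fin 3) K).det =
      β ^ 3 * (c0 * d1 - c1 * d0) ^ 3 := by
  rw [Matrix.det_fin_three]
  simp
  ring

/-! ### the forms with small coefficients -/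

/-- the linear form `X_a - (x_a / x_b) X_b` -/
noncomputable def mf (x : Fin (n + 1) → K) (b a : Fin (n + 1)) : MvPolynomial (Fin (n + 1)) K :=
  X a - C (x a / x b) * X b

/-- its components at `nf_0`, `nf_1` -/
def cc (x : Fin (n + 1) → K) (P : Fin (2 + 1) → Fin (n + 1) → K) (b a : Fin (n + 1))
    (i : Fin 2) : K := P i.succ a - x a / x b * P i.succ b

theorem mf_hom1 (b a : Fin (n + 1)) : (mf x b a).IsHomogeneous 1 := by
  unfold mf
  have h := (isHomogeneous_C (Fin (n + 1)) (x a / x b)).mul (isHomogeneous_X K b)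
  rw [zero_add] at h
  exact (isHomogeneous_X K a).sub h

theorem V_mf (d2 : ∀ m, 2 ≤ d m) (hx : x j0 = 1) (ch : Cht x j0 t P)
    (van : ∀ A : TP K n c, Adm d A → ∀ f, Sharp.VT D x (mulT A (lam t P f)) = 0)
    (m : Fin c) {A : MvPolynomial (Fin (n + 1)) K} (hA : A.IsHomogeneous (d m - 1))
    {b : Fin (n + 1)} (hb : x b ≠ 0) (a : Fin (n + 1)) :
    D.V x m (A * mf x b a) = cc x P b a 0 • D.V x m (A * nf x j0 t 0) +
      cc x P b a 1 • D.V x m (A * nf x j0 t 1) := by
  have e : A * mf x b a = A * lf x j0 a - (x a / x b) • (A * lf x j0 b) := by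
    have h1 : (C (x a) : MvPolynomial (Fin (n + 1)) K) = C (x a / x b) * C (x b) := by
      rw [← map_mul, div_mul_cancel₀ _ hb]
    unfold mf lf
    rw [smul_eq_C_mul, h1]
    ring
  rw [e, map_sub, map_smul, V_lf d2 hx ch van m hA, V_lf d2 hx ch van m hA]
  unfold cc
  simp only [Fin.succ_zero_eq_one, Fin.succ_one_eq_two]
  generalize D.V x m (A * nf x j0 t 0) = v0
  generalize D.V x m (A * nf x j0 t 1) = v1
  generalize x a / x b = r
  module

theorem V_mf2 (d2 : ∀ m, 2 ≤ d m) (hx : x j0 = 1) (ch : Cht x j0 t P)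
    (van : ∀ A : TP K n c, Adm d A → ∀ f, Sharp.VT D x (mulT A (lam t P f)) = 0)
    (m : Fin c) {u : Fin 2 → Fin 2 → Fin (n + 1) → K}
    (hu : ∀ i j (B : MvPolynomial (Fin (n + 1)) K), B.IsHomogeneous (d m - 2) →
        D.V x m (B * nf x j0 t j * nf x j0 t i) = eval x B • u i j)
    (hs : u 1 0 = u 0 1)
    {B : MvPolynomial (Fin (n + 1)) K} (hB : B.IsHomogeneous (d m - 2)) {b : Fin (n + 1)}
    (hb : x b ≠ 0) (a a' : Fin (n + 1)) :
    D.V x m (B * mf x b a * mf x b a') =
      (eval x B * (cc x P b a 0 * cc x P b a' 0)) • u 0 0 +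
      (eval x B * (cc x P b a 0 * cc x P b a' 1 + cc x P b a 1 * cc x P b a' 0)) • u 0 1 +
      (eval x B * (cc x P b a 1 * cc x P b a' 1)) • u 1 1 := by
  have hd : d m - 2 + 1 = d m - 1 := by have := d2 m; omega
  have hm1 : ∀ {l : MvPolynomial (Fin (n + 1)) K}, l.IsHomogeneous 1 →
      (B * l).IsHomogeneous (d m - 1) := by
    intro l hl
    have h := hB.mul hl
    rwa [hd] at h
  rw [V_mf d2 hx ch van m (hm1 (mf_hom1 b a)) hb]
  have h1 : ∀ i, D.V x m (B * mf x b a * nf x j0 t i) =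
      cc x P b a 0 • (eval x B • u 0 i) + cc x P b a 1 • (eval x B • u 1 i) := by
    intro i
    have e : B * mf x b a * nf x j0 t i = (B * nf x j0 t i) * mf x b a := by ring
    rw [e, V_mf d2 hx ch van m (hm1 (nf_hom1 x j0 t i)) hb, hu 0 i B hB, hu 1 i B hB]
  rw [h1, h1, hs]
  generalize u 0 0 = u00
  generalize u 0 1 = u01
  generalize u 1 1 = u11
  generalize eval x B = β
  generalize cc x P b a 0 = p0
  generalize cc x P b a 1 = p1
  generalize cc x P b a' 0 = q0
  generalize cc x P b a' 1 = q1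
  module

theorem cc_det (hx : x j0 = 1) (ch : Cht x j0 t P) {b : Fin (n + 1)} (hb : x b ≠ 0) :
    (cc x P b (t 1) 0 * cc x P b (t 2) 1 - cc x P b (t 1) 1 * cc x P b (t 2) 0) -
      x (t 2) * (cc x P b (t 1) 0 * cc x P b j0 1 - cc x P b (t 1) 1 * cc x P b j0 0) -
      x (t 1) * (cc x P b j0 0 * cc x P b (t 2) 1 - cc x P b j0 1 * cc x P b (t 2) 0) = 1 := by
  have hP : ∀ i j, P i (t j) = if i = j then 1 else 0 := ch.Pt
  have h0 : ∀ i, P i j0 = if i = 0 then 1 else 0 := by
    intro i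
    rw [← ch.t0]
    exact hP i 0
  unfold cc
  simp only [Fin.succ_zero_eq_one, Fin.succ_one_eq_two, hP, h0, hx]
  have e1 : (1 : Fin 3) ≠ 2 := by decide
  have e2 : (2 : Fin 3) ≠ 1 := by decide
  have e3 : (1 : Fin 3) ≠ 0 := by decide
  have e4 : (2 : Fin 3) ≠ 0 := by decide
  simp only [e1, e2, e3, e4, if_true, if_false]
  field_simp
  ring

/-! ### sizes -/

section sizes

variable {Γ : Type} [LinearOrderedCommGroupWithZero Γ]

theorem CB_mf (v : Valuation K Γ) {b : Fin (n + 1)} (hb : x b ≠ 0)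
    (hle : ∀ j, v (x j) ≤ v (x b)) (a : Fin (n + 1)) : T2.G.CB v (mf x b a) 1 := by
  unfold mf
  refine (T2.G.CB_X v a).sub v ((T2.G.CB_CX v _ b).mono v ?_)
  rw [map_div₀]
  have h0 : v (x b) ≠ 0 := (map_ne_zero v).2 hb
  exact (div_le_one₀ (zero_lt_iff.2 h0)).2 (hle a)

theorem CB_pow (v : Valuation K Γ) (b : Fin (n + 1)) (e : ℕ) :
    T2.G.CB v (X b ^ e : MvPolynomial (Fin (n + 1)) K) 1 := by
  induction e with
  | zero =>
    intro I
    classical
    rw [pow_zero, coeff_one]
    split_ifs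
    · rw [map_one]
    · rw [map_zero]; exact zero_le
  | succ e ih =>
    rw [pow_succ]
    have h := ih.mul v (T2.G.CB_X v b)
    rwa [one_mul] at h

/-- the size of the determinant, for one pair of forms -/
theorem size_pair (loc : LocStatement) (hn : n = c + 3) (hd : ∑ m, d m = n + 2)
    (d2 : ∀ m, 2 ≤ d m) (hx : x j0 = 1) (h0 : ∀ m, eval x (D.F m) = 0)
    (ch : Cht x j0 t P)
    (van : ∀ A : TP K n c, Adm d A → ∀ f, Sharp.VT D x (mulT A (lam t P f)) = 0)
    (m : Fin c) {u : Fin 2 → Fin 2 → Fin (n + 1) → K}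
    (hu : ∀ i j (B : MvPolynomial (Fin (n + 1)) K), B.IsHomogeneous (d m - 2) →
        D.V x m (B * nf x j0 t j * nf x j0 t i) = eval x B • u i j)
    (hs : u 1 0 = u 0 1) (ε : (Unit ⊕ (Fin 0 ⊕ Fin 3)) ⊕ Fin c ≃ Fin (n + 1))
    (η : Fin 0 → Fin (n + 1) → K) (v : Valuation K Γ) (M : Γ) (hM : 1 ≤ M)
    (hdel : ∀ (m : Fin c) (I : Fin (n + 1) →₀ ℕ), I.degree = d m → ∀ f, v f ≤ 1 →
      v (D.del m I f) ≤ M)
    {b : Fin (n + 1)} (hb : x b ≠ 0) (hle : ∀ j, v (x j) ≤ v (x b)) (a a' : Fin (n + 1)) :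
    v (dt D x j0 ε η ![u 0 0, u 0 1, u 1 1]) *
      v (cc x P b a 0 * cc x P b a' 1 - cc x P b a 1 * cc x P b a' 0) ^ 3 *
        v (x b) ^ (3 * (d m - 2) + 1) ≤ M ^ (3 + c) := by
  have hB : (X b ^ (d m - 2) : MvPolynomial (Fin (n + 1)) K).IsHomogeneous (d m - 2) :=
    isHomogeneous_X_pow b _
  have hBx : eval x (X b ^ (d m - 2) : MvPolynomial (Fin (n + 1)) K) = x b ^ (d m - 2) := by
    rw [map_pow, eval_X]
  have hdm : d m - 2 + 1 + 1 = d m := by have := d2 m; omega
  let g : Fin 3 → MvPolynomial (Fin (n + 1)) K := ![X b ^ (d m - 2) * mf x b a * mf x b a,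
    X b ^ (d m - 2) * mf x b a * mf x b a', X b ^ (d m - 2) * mf x b a' * mf x b a']
  let w : Fin 3 → Fin (n + 1) → K := fun c => D.V x m (g c)
  have hg6 : ∀ c, (g c).IsHomogeneous (d m) := by
    have key : ∀ a a', (X b ^ (d m - 2) * mf x b a * mf x b a').IsHomogeneous (d m) := by
      intro a a'
      have h := (hB.mul (mf_hom1 (x := x) b a)).mul (mf_hom1 (x := x) b a')
      rwa [hdm] at h
    intro c
    fin_cases c
    · exact key a a
    · exact key a a'
    · exact key a' a'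
  have hmf : ∀ a, eval x (mf x b a) = 0 := by
    intro a
    unfold mf
    rw [map_sub, map_mul, eval_X, eval_X, eval_C, div_mul_cancel₀ _ hb, sub_self]
  have hg0 : ∀ c, eval x (g c) = 0 := by
    intro c
    fin_cases c
    · show eval x (X b ^ (d m - 2) * mf x b a * mf x b a) = 0
      rw [map_mul, hmf, mul_zero]
    · show eval x (X b ^ (d m - 2) * mf x b a * mf x b a') = 0
      rw [map_mul, hmf, mul_zero]
    · show eval x (X b ^ (d m - 2) * mf x b a' * mf x b a') = 0
      rw [map_mul, hmf, mul_zero]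
  have hgc : ∀ c, T2.G.CB v (g c) 1 := by
    have key : ∀ a a', T2.G.CB v (X b ^ (d m - 2) * mf x b a * mf x b a') 1 := by
      intro a a'
      have h := ((CB_pow v b (d m - 2)).mul v (CB_mf v hb hle a)).mul v (CB_mf v hb hle a')
      rwa [one_mul, one_mul] at h
    intro c
    fin_cases c
    · exact key a a
    · exact key a a'
    · exact key a' a'
  have hw : dt D x j0 ε η w = (x b ^ (d m - 2)) ^ 3 *
      (cc x P b a 0 * cc x P b a' 1 - cc x P b a 1 * cc x P b a' 0) ^ 3 *
      dt D x j0 ε η ![u 0 0, u 0 1, u 1 1] := by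
    rw [← det_sq]
    refine dt_comb ε η _ w _ ?_
    intro c
    fin_cases c
    · show D.V x m (X b ^ (d m - 2) * mf x b a * mf x b a) = _
      rw [V_mf2 d2 hx ch van m hu hs hB hb, hBx, Fin.sum_univ_three]
      rfl
    · show D.V x m (X b ^ (d m - 2) * mf x b a * mf x b a') = _
      rw [V_mf2 d2 hx ch van m hu hs hB hb, hBx, Fin.sum_univ_three]
      rfl
    · show D.V x m (X b ^ (d m - 2) * mf x b a' * mf x b a') = _
      rw [V_mf2 d2 hx ch van m hu hs hB hb, hBx, Fin.sum_univ_three]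
      rfl
  have hGh : ∀ c m', ((Pi.single m (g c) : TP K n _) m').IsHomogeneous (d m') := by
    intro c m'
    by_cases h : m' = m
    · subst h
      rw [Pi.single_eq_same]
      exact hg6 c
    · rw [Pi.single_eq_of_ne h]
      exact isHomogeneous_zero _ _ _
  have h1 := loc K Γ n c d D x j0 hn hd hx h0 v M hM hdel 0 3 ε
    (fun _ => 0) (Sum.elim (fun c => c.elim0) fun c => Pi.single m (g c)) (fun _ => 1) η w
    ?_ ?_ ?_ ?_ ?_ b
  · rw [Finset.prod_const_one, mul_one, hw, map_mul, map_mul, map_pow, map_pow, map_pow] at h1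
    refine le_trans (le_of_eq ?_) h1
    have e : v (x b) ^ (3 * (d m - 2) + 1) = (v (x b) ^ (d m - 2)) ^ 3 * v (x b) := by
      rw [← pow_mul, ← pow_succ, mul_comm 3]
    rw [e]
    ac_rfl
  · rintro (c | c)
    · exact c.elim0
    · exact hGh c
  · intro c p q
    show v (0 : K) ≤ 1
    rw [map_zero]
    exact zero_le
  · rintro (c | c) m' I
    · exact c.elim0
    · show v (coeff I ((Pi.single m (g c) : TP K n _) m')) ≤ 1
      by_cases h : m' = m
      · subst h
        rw [Pi.single_eq_same]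
        exact hgc c I
      · rw [Pi.single_eq_of_ne h, coeff_zero, map_zero]
        exact zero_le
  · rintro (c | c)
    · exact c.elim0
    · show w c = _
      rw [Matrix.zero_mulVec, zero_add, Sum.elim_inr, VT_single]
  · rintro (c | c)
    · exact c.elim0
    · intro m'
      have h2 := Sharp.grad_VT D x h0 (Pi.single m (g c)) (hGh c) m'
      rw [VT_single] at h2
      have h3 : eval x ((Pi.single m (g c) : TP K n _) m') = 0 := by
        by_cases h : m' = m
        · subst h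
          rw [Pi.single_eq_same]
          exact hg0 c
        · rw [Pi.single_eq_of_ne h, map_zero]
      rw [h3, neg_zero] at h2
      exact h2

/-- the size of the determinant -/
theorem size_dt (loc : LocStatement) (hn : n = c + 3) (hd : ∑ m, d m = n + 2)
    (d2 : ∀ m, 2 ≤ d m) {k : Subfield K} {S : Sizes K k Γ} (hS : Sit S D x j0)
    (ch : Cht x j0 t P)
    (van : ∀ A : TP K n c, Adm d A → ∀ f, Sharp.VT D x (mulT A (lam t P f)) = 0)
    (m : Fin c) (d3 : 3 ≤ d m) {u : Fin 2 → Fin 2 → Fin (n + 1) → K}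
    (hu : ∀ i j (B : MvPolynomial (Fin (n + 1)) K), B.IsHomogeneous (d m - 2) →
        D.V x m (B * nf x j0 t j * nf x j0 t i) = eval x B • u i j)
    (hs : u 1 0 = u 0 1) (ε : (Unit ⊕ (Fin 0 ⊕ Fin 3)) ⊕ Fin c ≃ Fin (n + 1))
    (η : Fin 0 → Fin (n + 1) → K) (p : S.V) :
    S.v p (dt D x j0 ε η ![u 0 0, u 0 1, u 1 1]) * S.nm x p ≤ S.M p ^ (3 + c) := by
  obtain ⟨b, hnm, hle⟩ := S.exists_nm x p
  have hx := hS.hj0
  have hX1 : 1 ≤ S.v p (x b) := by
    have := hle j0
    rwa [hx, map_one] at this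
  have hb : x b ≠ 0 := by
    intro h
    rw [h, map_zero] at hX1
    exact absurd hX1 (not_le.2 zero_lt_one)
  have key := size_pair loc hn hd d2 hx hS.h0 ch van m hu hs ε η (S.v p) (S.M p) (S.one_le p)
    (fun m I hI f hf => hS.hdel p m I hI f hf) hb hle
  have hc := cc_det hx ch hb
  rw [hnm]
  generalize S.v p = v at *
  generalize hY : v (x b) = Y at *
  -- a pair with a large determinant
  have hex : ∃ a a', 1 ≤ Y * v (cc x P b a 0 * cc x P b a' 1 - cc x P b a 1 * cc x P b a' 0) := by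
    by_contra hcon
    push Not at hcon
    have h2 : v 1 < 1 := by
      rw [← hc]
      have hle' : ∀ z : K, v z ≤ Y * v z := by
        intro z
        calc v z = 1 * v z := (one_mul _).symm
          _ ≤ Y * v z := mul_le_mul' hX1 le_rfl
      refine (v.map_sub _ _).trans_lt (max_lt ((v.map_sub _ _).trans_lt (max_lt ?_ ?_)) ?_)
      · exact (hle' _).trans_lt (hcon _ _)
      · rw [map_mul]
        exact (mul_le_mul' (hle _) le_rfl).trans_lt (hcon _ _)
      · rw [map_mul]
        exact (mul_le_mul' (hle _) le_rfl).trans_lt (hcon _ _)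
    rw [map_one] at h2
    exact lt_irrefl _ h2
  obtain ⟨a, a', haa⟩ := hex
  have h3 := key a a'
  generalize v (cc x P b a 0 * cc x P b a' 1 - cc x P b a 1 * cc x P b a' 0) = δ at *
  generalize v (dt D x j0 ε η ![u 0 0, u 0 1, u 1 1]) = Z at *
  refine le_trans ?_ h3
  calc Z * Y = Z * Y * 1 * 1 := by rw [mul_one, mul_one]
    _ ≤ Z * Y * Y ^ (3 * (d m - 2) - 3) * (Y * δ) ^ 3 :=
      mul_le_mul' (mul_le_mul' le_rfl (one_le_pow₀ hX1)) (one_le_pow₀ haa)
    _ = Z * δ ^ 3 * Y ^ (3 * (d m - 2) + 1) := by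
      have e : Y ^ (3 * (d m - 2) + 1) = Y * Y ^ (3 * (d m - 2) - 3) * Y ^ 3 := by
        rw [← pow_succ', ← pow_add]
        congr 1
        omega
      rw [mul_pow, e]
      generalize Y ^ (3 * (d m - 2) - 3) = y9
      generalize Y ^ 3 = y3
      generalize δ ^ 3 = d3
      ac_rfl

end sizes

theorem kro : KroStatement := by
  intro alg loc Ω _ _ k Γ _ S n c d D x j0 t P hS h
  have hx := h.hj0
  have hL0 := line_vv h.d2 hx h.ch h.van h.line
  rcases alg Ω (AdS Ω n d) (Fin (n + 1) → Ω) (Fin (n + 1)) (vv D x j0 t)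
    (fun f i f' => bb D t P f i f')
    (fun f f' A A' => sym_bb h.d2 h.comm hx h.ch h.van f f' A A') hL0 with hb | hW0
  · exact Or.inl fun A hA f i => int_of_bb hx h.ch h.van hb A hA f i
  right
  have hL := two_le_rank hL0
  have hW := rank_W hW0
  obtain ⟨m1, ω, τ, T, hω, hTs, hTli, h2, h1⟩ := kron h.hn h.d2 hx h.h0 h.ch h.w0 h.van hL hW
  -- the components of degree at least three
  have hω0 : ∀ m, 3 ≤ d m → ω m = 0 := by
    intro m hm
    by_contra hne
    let u : Fin 2 → Fin 2 → Fin (n + 1) → Ω := fun i j => ω m • T i j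
    have hu : ∀ i j (B : MvPolynomial (Fin (n + 1)) Ω), B.IsHomogeneous (d m - 2) →
        D.V x m (B * nf x j0 t j * nf x j0 t i) = eval x B • u i j := by
      intro i j B hB
      rw [h2 m B hB i j, mul_smul]
    have hs : u 1 0 = u 0 1 := by
      show ω m • T 1 0 = ω m • T 0 1
      rw [hTs]
    have huli : LinearIndependent Ω ![u 0 0, u 0 1, u 1 1] := by
      rw [Fintype.linearIndependent_iff]
      intro g hg
      have hz := Fintype.linearIndependent_iff.1 hTli g (by
        have e : ∀ k, (![u 0 0, u 0 1, u 1 1] : Fin 3 → Fin (n + 1) → Ω) k =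
            ω m • (![T 0 0, T 0 1, T 1 1] : Fin 3 → Fin (n + 1) → Ω) k := by
          intro k
          fin_cases k <;> rfl
        simp only [e, smul_comm (g _) (ω m)] at hg
        rw [← Finset.smul_sum] at hg
        exact (smul_eq_zero.1 hg).resolve_left hne)
      exact hz
    have hB : (X j0 ^ (d m - 2) : MvPolynomial (Fin (n + 1)) Ω).IsHomogeneous (d m - 2) :=
      isHomogeneous_X_pow j0 _
    have hBx : eval x (X j0 ^ (d m - 2) : MvPolynomial (Fin (n + 1)) Ω) = 1 := by
      rw [map_pow, eval_X, hx, one_pow]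
    have hu' : ∀ i j, u i j = D.V x m (X j0 ^ (d m - 2) * nf x j0 t j * nf x j0 t i) := by
      intro i j
      rw [hu i j _ hB, hBx, one_smul]
    have hdm : d m - 2 + 1 + 1 = d m := by omega
    have hGh : ∀ i j m', ((Pi.single m (X j0 ^ (d m - 2) * nf x j0 t j * nf x j0 t i) :
        TP Ω n c) m').IsHomogeneous (d m') := by
      intro i j m'
      by_cases hm' : m' = m
      · subst hm'
        rw [Pi.single_eq_same]
        have h := (hB.mul (nf_hom1 x j0 t j)).mul (nf_hom1 x j0 t i)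
        rwa [hdm] at h
      · rw [Pi.single_eq_of_ne hm']
        exact isHomogeneous_zero _ _ _
    have hgu : ∀ i j, u i j ∈ KerF D x := by
      intro i j m'
      have h2 := Sharp.grad_VT D x h.h0 _ (hGh i j) m'
      have h3 : eval x ((Pi.single m (X j0 ^ (d m - 2) * nf x j0 t j * nf x j0 t i) :
          TP Ω n c) m') = 0 := by
        by_cases hm' : m' = m
        · subst hm'
          rw [Pi.single_eq_same, map_mul, nf_eval hx, mul_zero]
        · rw [Pi.single_eq_of_ne hm', map_zero]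
      rw [h3, neg_zero, VT_single, ← hu'] at h2
      exact h2
    have hju : ∀ i j, u i j j0 = 0 := by
      intro i j
      rw [hu']
      exact V_j0 hx m _
    obtain ⟨ε⟩ : Nonempty ((Unit ⊕ (Fin 0 ⊕ Fin 3)) ⊕ Fin c ≃ Fin (n + 1)) :=
      ⟨Fintype.equivOfCardEq (by
        have := h.hn
        simp
        omega)⟩
    let η : Fin 0 → Fin (n + 1) → Ω := fun c => c.elim0
    have hker : ∀ b : Fin 3, (![u 0 0, u 0 1, u 1 1] : Fin 3 → Fin (n + 1) → Ω) b ∈ KerF D x := by
      intro b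
      fin_cases b
      · exact hgu 0 0
      · exact hgu 0 1
      · exact hgu 1 1
    have hj : ∀ b : Fin 3, (![u 0 0, u 0 1, u 1 1] : Fin 3 → Fin (n + 1) → Ω) b j0 = 0 := by
      intro b
      fin_cases b
      · exact hju 0 0
      · exact hju 0 1
      · exact hju 1 1
    have hne' : dt D x j0 ε η ![u 0 0, u 0 1, u 1 1] ≠ 0 := by
      refine H75.dt_ne D x j0 h.h0 hx ε η _ ?_ ?_
      · rw [Fintype.linearIndependent_iff]
        intro g hg
        rw [Fintype.sum_sum_type, Fintype.sum_sum_type] at hg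
        simp only [Finset.univ_unique, Sum.elim_inl, Sum.elim_inr, Finset.sum_singleton,
          Finset.univ_eq_empty, Finset.sum_empty, zero_add] at hg
        have h3 := congrFun hg j0
        rw [Pi.add_apply, Finset.sum_apply, Pi.smul_apply, hx, smul_eq_mul, mul_one] at h3
        simp only [Pi.smul_apply, hj, smul_zero, Finset.sum_const_zero, add_zero,
          Pi.zero_apply] at h3
        rw [h3, zero_smul, zero_add] at hg
        have h4 := Fintype.linearIndependent_iff.1 huli (fun b => g (Sum.inr (Sum.inr b))) hg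
        rintro (a | a | a)
        · exact h3
        · exact a.elim0
        · exact h4 a
      · rintro (a | a | a)
        · exact fun m => grad_x D x h.h0 m
        · exact a.elim0
        · exact hker a
    have h3 := S.s01 hx hne' ((S.small_M.pow (3 + c)).mono fun p =>
      size_dt loc h.hn h.hd h.d2 hS h.ch h.van m hm hu hs ε η p)
    obtain ⟨i, hi⟩ := hS.xk
    exact hi (h3.2 i)
  have hd1 : d m1 = 2 := by
    have h3 := h.d2 m1
    by_contra hne
    exact hω (hω0 m1 (by omega))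
  refine ⟨m1, fun m => ω m / ω m1, fun m i => τ m i / ω m1, fun i j => ω m1 • T i j, ?_⟩
  refine ⟨hd1, div_self hω, fun m hm => by rw [hω0 m hm, zero_div], ?_, ?_, ?_, ?_⟩
  · show ω m1 • T 1 0 = ω m1 • T 0 1
    rw [hTs]
  · rw [Fintype.linearIndependent_iff]
    intro g hg
    refine Fintype.linearIndependent_iff.1 hTli g ?_
    have e : ∀ k, (![ω m1 • T 0 0, ω m1 • T 0 1, ω m1 • T 1 1] :
        Fin 3 → Fin (n + 1) → Ω) k =
        ω m1 • (![T 0 0, T 0 1, T 1 1] : Fin 3 → Fin (n + 1) → Ω) k := by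
      intro k
      fin_cases k <;> rfl
    simp only [e, smul_comm (g _) (ω m1)] at hg
    rw [← Finset.smul_sum] at hg
    exact (smul_eq_zero.1 hg).resolve_left hω
  · intro m B hB i j
    rw [VT_single, h2 m B hB i j, smul_smul, mul_assoc, div_mul_cancel₀ _ hω]
  · intro m i
    rw [VT_single, h1 m i, smul_smul, smul_smul, div_mul_cancel₀ _ hω, div_mul_cancel₀ _ hω]

end Pool.Agent.T2C.H6
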