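import Pool.Agent.Lib.MP_c7af3c_ag.T2C.BetaI
import Pool.Agent.Lib.MP_c7af3c_ag.T2.H6.BetaAlg
import Pool.Agent.Lib.MP_c7af3c_ag.T2.H6.Sub
import Pool.Agent.Lib.MP_c7af3c_ag.T2.H54.Basic
import Pool.Agent.Lib.MP_c7af3c_ag.SHARP.H87.LineI

/-!
# MP_c7af3c_ag, project T2C, row BETA, sub-row KRO: symmetry and LINE (helper6)
`vv i A = V(A nf_i)` for tuples `A`.
-/

set_option autoImplicit false

namespace Pool.Agent.T2C.H6

open MvPolynomial Module Pool.Agent.Gen Pool.Agent.Sharp Pool.Agent.Edge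
open Pool.Agent.T2 (Fk Rac lnf Sizes Sit)
open Pool.Agent.Sharp.H75 (dco DG dco_mul dco_add dco_sum dco_X dco_C coeff_dco dco_hom)
open Pool.Agent.Sharp.H87 (hh JJ)

variable {K : Type} [Field K] {n c : ℕ} {d : Fin c → ℕ} {D : DSys K n c d}
  {x : Fin (n + 1) → K} {j0 : Fin (n + 1)}
  {t : Fin (2 + 1) → Fin (n + 1)} {P : Fin (2 + 1) → Fin (n + 1) → K}

/-! ### tuples -/

theorem lam_hom1 (t : Fin (2 + 1) → Fin (n + 1)) (P : Fin (2 + 1) → Fin (n + 1) → K)
    (f : Fin (n + 1)) : (lam t P f).IsHomogeneous 1 := by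
  unfold lam
  refine (isHomogeneous_X K f).sub (IsHomogeneous.sum _ _ _ fun i _ => ?_)
  have h := (isHomogeneous_C (Fin (n + 1)) (P i f)).mul (isHomogeneous_X K (t i))
  rwa [zero_add] at h

theorem nf_hom1 (x : Fin (n + 1) → K) (j0 : Fin (n + 1)) (t : Fin (2 + 1) → Fin (n + 1))
    (i : Fin 2) : (nf x j0 t i).IsHomogeneous 1 := hom_lf x j0 _

/-- tuples of forms of degrees `d m - 1` -/
def AdS (K : Type) [Field K] (n : ℕ) {c : ℕ} (d : Fin c → ℕ) : Submodule K (TP K n c) where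
  carrier := {A | Adm d A}
  add_mem' := by
    intro A B hA hB m I h
    rw [Pi.add_apply, coeff_add] at h
    by_cases h1 : coeff I (A m) = 0
    · rw [h1, zero_add] at h
      exact hB m I h
    · exact hA m I h1
  zero_mem' := by
    intro m I h
    exact absurd (coeff_zero I) h
  smul_mem' := by
    intro a A hA m I h
    rw [Pi.smul_apply, coeff_smul, smul_eq_mul] at h
    exact hA m I (right_ne_zero_of_mul h)

theorem adm_of_hom (d2 : ∀ m, 2 ≤ d m) {A : TP K n c}
    (hA : ∀ m, (A m).IsHomogeneous (d m - 1)) : Adm d A := by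
  intro m I h
  have h1 := hA m h
  have h2 : I.degree = d m - 1 := by
    rw [← h1, Finsupp.degree_eq_weight_one]
    rfl
  have := d2 m
  omega

theorem hom_of_adm {A : TP K n c} (hA : Adm d A) (m : Fin c) :
    (A m).IsHomogeneous (d m - 1) := by
  intro I h
  have h1 := hA m I h
  have h2 : I.degree = d m - 1 := by omega
  rw [← h2, Finsupp.degree_eq_weight_one]
  rfl

theorem single_adm (d2 : ∀ m, 2 ≤ d m) (m : Fin c) {B : MvPolynomial (Fin (n + 1)) K}
    (hB : B.IsHomogeneous (d m - 1)) : Adm d (Pi.single m B : TP K n c) := by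
  refine adm_of_hom d2 fun m' => ?_
  by_cases h : m' = m
  · subst h
    rw [Pi.single_eq_same]
    exact hB
  · rw [Pi.single_eq_of_ne h]
    exact isHomogeneous_zero _ _ _

theorem mulT_single (m : Fin c) (B l : MvPolynomial (Fin (n + 1)) K) :
    mulT (Pi.single m B : TP K n c) l = Pi.single m (B * l) := by
  funext m'
  unfold mulT
  by_cases h : m' = m
  · subst h
    rw [Pi.single_eq_same, Pi.single_eq_same]
  · rw [Pi.single_eq_of_ne h, Pi.single_eq_of_ne h, zero_mul]

theorem VT_single (m : Fin c) (G : MvPolynomial (Fin (n + 1)) K) :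
    Sharp.VT D x (Pi.single m G) = D.V x m G := by
  rw [Sharp.VT_apply, Finset.sum_eq_single m]
  · rw [Pi.single_eq_same]
  · intro m' _ h
    rw [Pi.single_eq_of_ne h, map_zero]
  · intro h; exact absurd (Finset.mem_univ _) h

theorem V_eq_DG (z : Fin (n + 1) → K) (G : TP K n c) (p : Fin (n + 1)) :
    Sharp.VT D z G p = DG D G (z p) := Sharp.H75.VT_apply D z G p

theorem VT_j0 (hx : x j0 = 1) (G : TP K n c) : Sharp.VT D x G j0 = 0 := by
  rw [V_eq_DG, hx, Derivation.map_one_eq_zero]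

theorem V_j0 (hx : x j0 = 1) (m : Fin c) (G : MvPolynomial (Fin (n + 1)) K) :
    D.V x m G j0 = 0 := by
  rw [← VT_single]
  exact VT_j0 hx _

theorem zero_of_span (hx : x j0 = 1) {u : Fin (n + 1) → K} (hu : u ∈ Submodule.span K {x})
    (h0 : u j0 = 0) : u = 0 := by
  obtain ⟨a, rfl⟩ := Submodule.mem_span_singleton.1 hu
  rw [Pi.smul_apply, hx, smul_eq_mul, mul_one] at h0
  rw [h0, zero_smul]

/-- multiplication of tuples by a form -/
noncomputable def mulL (l : MvPolynomial (Fin (n + 1)) K) : TP K n c →ₗ[K] TP K n c where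
  toFun A := mulT A l
  map_add' A B := by
    funext m
    exact add_mul _ _ _
  map_smul' a A := by
    funext m
    exact smul_mul_assoc a (A m) l

theorem mulL_apply (l : MvPolynomial (Fin (n + 1)) K) (A : TP K n c) :
    mulL l A = mulT A l := rfl

/-- the maps `A ↦ V(A nf_i)` -/
noncomputable def vv (D : DSys K n c d) (x : Fin (n + 1) → K) (j0 : Fin (n + 1))
    (t : Fin (2 + 1) → Fin (n + 1)) (i : Fin 2) : AdS K n d →ₗ[K] (Fin (n + 1) → K) :=
  ((Sharp.VT D x).comp (mulL (nf x j0 t i))).comp (AdS K n d).subtype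

theorem vv_apply (i : Fin 2) (A : AdS K n d) :
    vv D x j0 t i A = Sharp.VT D x (mulT A.1 (nf x j0 t i)) := rfl

theorem lf_dec (hx : x j0 = 1) (ch : Cht x j0 t P) (a : Fin (n + 1)) :
    lf x j0 a = lam t P a + ∑ i : Fin 2, C (P i.succ a) * nf x j0 t i := by
  unfold nf lf lam
  have h1 := ch.xP a
  rw [Fin.sum_univ_three, ch.t0, hx, mul_one] at h1
  rw [Fin.sum_univ_three, Fin.sum_univ_two, ch.t0, h1]
  simp only [Fin.succ_zero_eq_one, Fin.succ_one_eq_two, map_add, map_mul]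
  ring

/-- the variation of the multiples of a linear form which vanishes at `x` -/
theorem VT_lf (hx : x j0 = 1) (ch : Cht x j0 t P)
    (van : ∀ A : TP K n c, Adm d A → ∀ f, Sharp.VT D x (mulT A (lam t P f)) = 0)
    {A : TP K n c} (hA : Adm d A) (a : Fin (n + 1)) :
    Sharp.VT D x (mulT A (lf x j0 a)) = P 1 a • Sharp.VT D x (mulT A (nf x j0 t 0)) +
      P 2 a • Sharp.VT D x (mulT A (nf x j0 t 1)) := by
  have h : mulT A (lf x j0 a) = mulT A (lam t P a) + (P 1 a • mulT A (nf x j0 t 0) +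
      P 2 a • mulT A (nf x j0 t 1)) := by
    funext m
    rw [Pi.add_apply, Pi.add_apply, Pi.smul_apply, Pi.smul_apply]
    unfold mulT
    rw [lf_dec hx ch a, Fin.sum_univ_two, smul_eq_C_mul, smul_eq_C_mul]
    simp only [Fin.succ_zero_eq_one, Fin.succ_one_eq_two]
    ring
  rw [h, map_add, map_add, map_smul, map_smul, van A hA, zero_add]

theorem V_lf (d2 : ∀ m, 2 ≤ d m) (hx : x j0 = 1) (ch : Cht x j0 t P)
    (van : ∀ A : TP K n c, Adm d A → ∀ f, Sharp.VT D x (mulT A (lam t P f)) = 0)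
    (m : Fin c) {A : MvPolynomial (Fin (n + 1)) K} (hA : A.IsHomogeneous (d m - 1))
    (a : Fin (n + 1)) :
    D.V x m (A * lf x j0 a) = P 1 a • D.V x m (A * nf x j0 t 0) +
      P 2 a • D.V x m (A * nf x j0 t 1) := by
  have h := VT_lf hx ch van (single_adm d2 m hA) a
  rwa [mulT_single, mulT_single, mulT_single, VT_single, VT_single, VT_single] at h

/-! ### LINE -/

theorem comb_mem {U : Type} [AddCommGroup U] [Module K U] {N : Submodule K U} {a : Fin 2 → K}
    (ha : a ≠ 0) {v0 v1 : U} (hm : a 0 • v0 + a 1 • v1 ∈ N) {c0 c1 : K}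
    (e3 : a 0 * c1 = a 1 * c0) : c0 • v0 + c1 • v1 ∈ N := by
  have hmem : ∀ r : K, c0 = r * a 0 → c1 = r * a 1 → c0 • v0 + c1 • v1 ∈ N := by
    intro r h0 h1
    have e : c0 • v0 + c1 • v1 = r • (a 0 • v0 + a 1 • v1) := by
      rw [h0, h1, smul_add, smul_smul, smul_smul]
    rw [e]
    exact Submodule.smul_mem _ _ hm
  by_cases ha0 : a 0 = 0
  · have ha1 : a 1 ≠ 0 := by
      intro h
      apply ha
      funext i
      fin_cases i
      · exact ha0
      · exact h
    refine hmem (c1 / a 1) ?_ (div_mul_cancel₀ _ ha1).symm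
    rw [ha0, zero_mul] at e3
    rw [ha0, mul_zero]
    exact (mul_eq_zero.1 e3.symm).resolve_left ha1
  · refine hmem (c0 / a 0) (div_mul_cancel₀ _ ha0).symm ?_
    field_simp
    linear_combination e3

/-- the second point of the line -/
def yy (P : Fin (2 + 1) → Fin (n + 1) → K) (a : Fin 2 → K) : Fin (n + 1) → K :=
  fun f => -a 1 * P 1 f + a 0 * P 2 f

theorem gen_mem (d2 : ∀ m, 2 ≤ d m) (hx : x j0 = 1) (ch : Cht x j0 t P)
    (van : ∀ A : TP K n c, Adm d A → ∀ f, Sharp.VT D x (mulT A (lam t P f)) = 0)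
    {a : Fin 2 → K} (ha : a ≠ 0) {u : Fin (n + 1) → K}
    (hcon : ∀ A, a 0 • vv D x j0 t 0 A + a 1 • vv D x j0 t 1 A ∈ Submodule.span K {u})
    {i0 : Fin (n + 1)} (hi0 : yy P a i0 ≠ 0) (m : Fin c) (I : Fin (n + 1) →₀ ℕ)
    (hI : I.degree + 1 = d m) (k : Fin (n + 1)) :
    D.V x m (hh x (yy P a) j0 i0 k * monomial I 1) ∈ Submodule.span K {u} := by
  have hX : (monomial I 1 : MvPolynomial (Fin (n + 1)) K).IsHomogeneous (d m - 1) :=
    isHomogeneous_monomial 1 (by omega)
  have e1 : hh x (yy P a) j0 i0 k * monomial I 1 =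
      monomial I 1 * lf x j0 k - (yy P a k / yy P a i0) • (monomial I 1 * lf x j0 i0) := by
    unfold hh
    rw [smul_eq_C_mul]
    ring
  have hmem := hcon ⟨Pi.single m (monomial I 1), single_adm d2 m hX⟩
  have hA : ∀ i, vv D x j0 t i ⟨Pi.single m (monomial I 1), single_adm d2 m hX⟩ =
      D.V x m (monomial I 1 * nf x j0 t i) := by
    intro i
    rw [vv_apply, mulT_single, VT_single]
  rw [hA 0, hA 1] at hmem
  rw [e1, map_sub, map_smul, V_lf d2 hx ch van m hX, V_lf d2 hx ch van m hX]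
  generalize D.V x m (monomial I 1 * nf x j0 t 0) = v0 at hmem ⊢
  generalize D.V x m (monomial I 1 * nf x j0 t 1) = v1 at hmem ⊢
  have e3 : a 0 * (P 2 k - yy P a k / yy P a i0 * P 2 i0) =
      a 1 * (P 1 k - yy P a k / yy P a i0 * P 1 i0) := by
    have e4 : -a 1 * P 1 k + a 0 * P 2 k = yy P a k := rfl
    have e5 : -a 1 * P 1 i0 + a 0 * P 2 i0 = yy P a i0 := rfl
    have e6 : yy P a k / yy P a i0 * yy P a i0 = yy P a k := div_mul_cancel₀ _ hi0
    linear_combination e4 - yy P a k / yy P a i0 * e5 - e6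
  have e2 : P 1 k • v0 + P 2 k • v1 - (yy P a k / yy P a i0) • (P 1 i0 • v0 + P 2 i0 • v1) =
      (P 1 k - yy P a k / yy P a i0 * P 1 i0) • v0 +
        (P 2 k - yy P a k / yy P a i0 * P 2 i0) • v1 := by
    generalize yy P a k / yy P a i0 = r
    module
  rw [e2]
  exact comb_mem ha hmem e3

/-- all combinations have rank at least two -/
theorem line_vv (d2 : ∀ m, 2 ≤ d m) (hx : x j0 = 1) (ch : Cht x j0 t P)
    (van : ∀ A : TP K n c, Adm d A → ∀ f, Sharp.VT D x (mulT A (lam t P f)) = 0)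
    (ln : ∀ y κ : Fin (n + 1) → K, LinearIndependent K ![x, y] →
      ∃ G : TP K n c, Lines.Hom d G ∧ Lines.OnLine x y G ∧
        Sharp.VT D x G ∉ Submodule.span K {x, κ})
    [CharZero K] (a : Fin 2 → K) (ha : a ≠ 0) (u : Fin (n + 1) → K) :
    ∃ A, a 0 • vv D x j0 t 0 A + a 1 • vv D x j0 t 1 A ∉ Submodule.span K {u} := by
  classical
  by_contra hcon
  push Not at hcon
  have hP : ∀ i j, P i (t j) = if i = j then 1 else 0 := ch.Pt
  have y0 : yy P a j0 = 0 := by
    unfold yy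
    rw [← ch.t0]
    simp only [hP]
    simp
  have y1 : yy P a (t 1) = -a 1 := by
    unfold yy
    simp only [hP]
    simp
  have y2 : yy P a (t 2) = a 0 := by
    unfold yy
    simp only [hP]
    simp
  obtain ⟨i0, hi0⟩ : ∃ i0, yy P a i0 ≠ 0 := by
    by_contra h
    push Not at h
    apply ha
    funext i
    fin_cases i
    · exact y2.symm.trans (h _)
    · have := h (t 1)
      rw [y1, neg_eq_zero] at this
      exact this
  have hli : LinearIndependent K ![x, yy P a] := by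
    rw [LinearIndependent.pair_iff]
    intro s r hsr
    have h1 := congrFun hsr j0
    simp only [Pi.add_apply, Pi.smul_apply, smul_eq_mul, Pi.zero_apply, hx, y0, mul_one,
      mul_zero, add_zero] at h1
    refine ⟨h1, ?_⟩
    have h2 := congrFun hsr i0
    simp only [Pi.add_apply, Pi.smul_apply, smul_eq_mul, Pi.zero_apply, h1, zero_mul,
      zero_add] at h2
    exact (mul_eq_zero.1 h2).resolve_right hi0
  obtain ⟨G, hG, hG0, hn⟩ := ln (yy P a) u hli
  have hJ : ∀ m, JJ x (yy P a) j0 i0 (d m) ≤ (Submodule.span K {u}).comap (D.V x m) := by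
    intro m
    unfold JJ
    rw [Submodule.span_le]
    rintro _ ⟨I, hI, k, rfl⟩
    exact gen_mem d2 hx ch van ha hcon hi0 m I hI k
  have h2 : Sharp.VT D x G ∈ Submodule.span K {u} := by
    rw [Sharp.VT_apply]
    refine Submodule.sum_mem _ fun m _ => ?_
    exact hJ m (H87.lineI x (yy P a) j0 i0 (hG m) (hG0 m))
  refine hn (Submodule.span_mono ?_ h2)
  rw [Set.singleton_subset_iff]
  exact Set.mem_insert_of_mem _ rfl

/-! ### the symmetry -/

/-- the component of the derivative of the frame -/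
noncomputable def bb (D : DSys K n c d) (t : Fin (2 + 1) → Fin (n + 1))
    (P : Fin (2 + 1) → Fin (n + 1) → K) (f : Fin (n + 1)) (i : Fin 2) (f' : Fin (n + 1)) :
    AdS K n d →ₗ[K] K :=
  (LinearMap.proj f).comp (((Sharp.VT D (P i.succ)).comp (mulL (lam t P f'))).comp
    (AdS K n d).subtype)

theorem bb_apply (f : Fin (n + 1)) (i : Fin 2) (f' : Fin (n + 1)) (A : AdS K n d) :
    bb D t P f i f' A = Sharp.VT D (P i.succ) (mulT A.1 (lam t P f')) f := rfl

theorem dco_lam (δ : Derivation ℤ K K) (f : Fin (n + 1)) :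
    dco δ (lam t P f) = -∑ i, C (δ (P i f)) * X (t i) := by
  have h1 : lam t P f + ∑ i, C (P i f) * X (t i) = X f := by
    unfold lam
    ring
  have h2 := congrArg (dco δ) h1
  rw [dco_add, dco_X, dco_sum] at h2
  have h3 : ∀ i, dco δ (C (P i f) * X (t i) : MvPolynomial (Fin (n + 1)) K) =
      C (δ (P i f)) * X (t i) := by
    intro i
    rw [dco_mul, dco_X, dco_C, mul_zero, add_zero]
  simp only [h3] at h2
  exact eq_neg_of_add_eq_zero_left h2

/-- the derivations which fix `x` : the relation of the derivatives of the frame -/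
theorem rel_frame (ch : Cht x j0 t P) (δ : Derivation ℤ K K) (hδ : ∀ p, δ (x p) = 0)
    (f : Fin (n + 1)) : ∑ i, δ (P i f) * x (t i) = 0 := by
  have h1 := congrArg δ (ch.xP f)
  rw [hδ, map_sum] at h1
  rw [h1]
  refine Finset.sum_congr rfl fun i _ => ?_
  rw [Derivation.leibniz, hδ, smul_zero, zero_add, smul_eq_mul, mul_comm]

theorem dco_lam' (hx : x j0 = 1) (ch : Cht x j0 t P) (δ : Derivation ℤ K K)
    (hδ : ∀ p, δ (x p) = 0) (f : Fin (n + 1)) :
    dco δ (lam t P f) = -∑ i : Fin 2, C (δ (P i.succ f)) * nf x j0 t i := by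
  rw [dco_lam]
  congr 1
  have h1 := rel_frame ch δ hδ f
  rw [Fin.sum_univ_three, ch.t0, hx, mul_one] at h1
  rw [Fin.sum_univ_three, Fin.sum_univ_two, ch.t0]
  unfold nf lf
  simp only [Fin.succ_zero_eq_one, Fin.succ_one_eq_two]
  have h2 : δ (P 0 f) = -(δ (P 1 f) * x (t 1)) - δ (P 2 f) * x (t 2) := by
    linear_combination h1
  rw [h2]
  simp only [map_sub, map_neg, map_mul]
  ring

theorem sym_bb (d2 : ∀ m, 2 ≤ d m) (hc : Lines.Comm D) (hx : x j0 = 1) (ch : Cht x j0 t P)
    (van : ∀ A : TP K n c, Adm d A → ∀ f, Sharp.VT D x (mulT A (lam t P f)) = 0)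
    (f f' : Fin (n + 1)) (A A' : AdS K n d) :
    bb D t P f 0 f' A' • vv D x j0 t 0 A + bb D t P f 1 f' A' • vv D x j0 t 1 A =
      bb D t P f' 0 f A • vv D x j0 t 0 A' + bb D t P f' 1 f A • vv D x j0 t 1 A' := by
  set G : TP K n c := mulT A'.1 (lam t P f') with hG
  set H : TP K n c := mulT A.1 (lam t P f) with hH
  have hhom : ∀ (B : AdS K n d) (g : Fin (n + 1)), H75.Hom d (mulT B.1 (lam t P g)) := by
    intro B g m
    have h1 := (hom_of_adm B.2 m).mul (lam_hom1 t P g)
    have h2 : d m - 1 + 1 = d m := by have := d2 m; omega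
    rw [h2] at h1
    exact h1
  have hGh : H75.Hom d G := hhom A' f'
  have hHh : H75.Hom d H := hhom A f
  have hGx : ∀ p, DG D G (x p) = 0 := by
    intro p
    rw [hG, ← V_eq_DG, van _ A'.2, Pi.zero_apply]
  have hHx : ∀ p, DG D H (x p) = 0 := by
    intro p
    rw [hH, ← V_eq_DG, van _ A.2, Pi.zero_apply]
  have hcm : H75.Comm D := fun m I m' J _ _ f => hc m I m' J f
  have key : ∀ p, Sharp.VT D x ((fun m => dco (DG D G) (H m)) -
      fun m => dco (DG D H) (G m)) p = 0 := by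
    intro p
    have h1 := H75.DG_comm (D := D) hcm hGh hHh (x p)
    rw [hGx, hHx, map_zero, map_zero, sub_zero] at h1
    rw [V_eq_DG]
    exact h1.symm
  have h2 : ∀ (δ : Derivation ℤ K K) (hδ : ∀ p, δ (x p) = 0)
      (B : AdS K n d) (g : Fin (n + 1)),
      Sharp.VT D x (fun m => dco δ (mulT B.1 (lam t P g) m)) =
        -(δ (P 1 g) • vv D x j0 t 0 B + δ (P 2 g) • vv D x j0 t 1 B) := by
    intro δ hδ B g
    have hB' : Adm d (fun m => dco δ (B.1 m) : TP K n c) := by
      intro m I h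
      rw [coeff_dco] at h
      refine B.2 m I fun h0 => h ?_
      rw [h0, map_zero]
    have e : (fun m => dco δ (mulT B.1 (lam t P g) m) : TP K n c) =
        mulT (fun m => dco δ (B.1 m)) (lam t P g) +
        -(δ (P 1 g) • mulT B.1 (nf x j0 t 0) + δ (P 2 g) • mulT B.1 (nf x j0 t 1)) := by
      funext m
      rw [Pi.add_apply, Pi.neg_apply, Pi.add_apply, Pi.smul_apply, Pi.smul_apply]
      unfold mulT
      rw [dco_mul, dco_lam' hx ch δ hδ, Fin.sum_univ_two, smul_eq_C_mul, smul_eq_C_mul]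
      simp only [Fin.succ_zero_eq_one, Fin.succ_one_eq_two]
      ring
    rw [e, map_add, van _ hB', zero_add, map_neg, map_add, map_smul, map_smul]
    rfl
  have h3 : Sharp.VT D x (fun m => dco (DG D G) (H m)) =
      Sharp.VT D x (fun m => dco (DG D H) (G m)) := by
    rw [← sub_eq_zero, ← map_sub]
    funext p
    exact key p
  rw [h2 _ hGx, h2 _ hHx, neg_inj] at h3
  rw [bb_apply, bb_apply, bb_apply, bb_apply, V_eq_DG, V_eq_DG, V_eq_DG, V_eq_DG]
  exact h3

/-- if all the components are zero, the plane is integrable -/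
theorem int_of_bb (hx : x j0 = 1) (ch : Cht x j0 t P)
    (van : ∀ A : TP K n c, Adm d A → ∀ f, Sharp.VT D x (mulT A (lam t P f)) = 0)
    (hb : ∀ f i f' A, bb D t P f i f' A = 0) (A : TP K n c) (hA : Adm d A)
    (f : Fin (n + 1)) (i : Fin (2 + 1)) : Sharp.VT D (P i) (mulT A (lam t P f)) = 0 := by
  funext g
  rw [Pi.zero_apply, V_eq_DG]
  set δ := DG D (mulT A (lam t P f)) with hδ
  have hδx : ∀ p, δ (x p) = 0 := by
    intro p
    rw [hδ, ← V_eq_DG, van A hA, Pi.zero_apply]
  have h1 : ∀ i : Fin 2, δ (P i.succ g) = 0 := by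
    intro i
    rw [hδ, ← V_eq_DG]
    exact hb g i f ⟨A, hA⟩
  have h2 : δ (P 1 g) = 0 := h1 0
  have h3 : δ (P 2 g) = 0 := h1 1
  have h4 := rel_frame ch δ hδx g
  rw [Fin.sum_univ_three, ch.t0, hx, mul_one, h2, h3, zero_mul, zero_mul, add_zero,
    add_zero] at h4
  fin_cases i
  · exact h4
  · exact h2
  · exact h3

end Pool.Agent.T2C.H6
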