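import Pool.Agent.Lib.MP_c7af3c_ag.T2C.H6.Kro1

/-!
# MP_c7af3c_ag, project T2C, row BETA, sub-row KRO: the degenerate pencil (helper6)
-/

set_option autoImplicit false

namespace Pool.Agent.T2C.H6

open MvPolynomial Module Pool.Agent.Gen Pool.Agent.Sharp Pool.Agent.Edge
open Pool.Agent.T2 (Fk Rac lnf Sizes Sit)
open Pool.Agent.T2.H6 (cv cv_apply of_products ker_cv pencil)

/-! ### linear algebra -/

section alg

variable {K : Type} [Field K] {S U : Type} [AddCommGroup S] [Module K S] [AddCommGroup U]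
  [Module K U] {v : Fin 2 → S →ₗ[K] U}

theorem two_le_rank [FiniteDimensional K U]
    (hL : ∀ a : Fin 2 → K, a ≠ 0 → ∀ u : U, ∃ A, a 0 • v 0 A + a 1 • v 1 A ∉ Submodule.span K {u})
    (a : Fin 2 → K) (ha : a ≠ 0) : 2 ≤ finrank K (LinearMap.range (cv v a)) := by
  by_contra h
  have h1 : finrank K (LinearMap.range (cv v a)) ≤ 1 := by omega
  obtain ⟨u, hu⟩ := finrank_le_one_iff.1 h1
  obtain ⟨A, hA⟩ := hL a ha u.1
  apply hA
  obtain ⟨r, hr⟩ := hu ⟨cv v a A, ⟨A, rfl⟩⟩
  rw [Submodule.mem_span_singleton]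
  refine ⟨r, ?_⟩
  have h2 := congrArg Subtype.val hr
  exact h2

theorem rank_W (hW : ∃ A₀ A₁ : S, ∀ A, ∃ α β : K, ∀ i, v i A = α • v i A₀ + β • v i A₁) :
    finrank K (LinearMap.range ((v 0).prod (v 1))) ≤ 2 := by
  obtain ⟨A₀, A₁, h⟩ := hW
  have h1 : LinearMap.range ((v 0).prod (v 1)) ≤
      Submodule.span K (Set.range ![((v 0).prod (v 1)) A₀, ((v 0).prod (v 1)) A₁]) := by
    rintro _ ⟨A, rfl⟩
    obtain ⟨α, β, hA⟩ := h A
    have e : ((v 0).prod (v 1)) A = α • ((v 0).prod (v 1)) A₀ + β • ((v 0).prod (v 1)) A₁ := by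
      simp only [LinearMap.prod_apply]
      exact Prod.ext (hA 0) (hA 1)
    rw [e]
    exact Submodule.add_mem _ (Submodule.smul_mem _ _ (Submodule.subset_span ⟨0, rfl⟩))
      (Submodule.smul_mem _ _ (Submodule.subset_span ⟨1, rfl⟩))
  have hfd : FiniteDimensional K (Submodule.span K
      (Set.range ![((v 0).prod (v 1)) A₀, ((v 0).prod (v 1)) A₁])) :=
    FiniteDimensional.span_of_finite K (Set.finite_range _)
  refine (Submodule.finrank_mono h1).trans ?_
  have h2 := finrank_range_le_card (R := K) ![((v 0).prod (v 1)) A₀, ((v 0).prod (v 1)) A₁]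
  rw [Set.finrank, Fintype.card_fin] at h2
  exact h2

/-- every element is a combination of `A₀`, `A₁` modulo the common kernel -/
theorem dec [FiniteDimensional K U]
    (hW : finrank K (LinearMap.range ((v 0).prod (v 1))) ≤ 2) (A₀ A₁ : S)
    (hli : LinearIndependent K ![v 0 A₀, v 0 A₁, v 1 A₁]) (A : S) :
    ∃ α β : K, ∀ i, v i A = α • v i A₀ + β • v i A₁ := by
  set W := (v 0).prod (v 1) with hWd
  have hind : LinearIndependent K ![W A₀, W A₁] := by
    rw [LinearIndependent.pair_iff]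
    intro s t hst
    have h1 := congrArg Prod.fst hst
    have h2 : s • v 0 A₀ + t • v 0 A₁ = 0 := h1
    have hli' := Fintype.linearIndependent_iff.1 hli ![s, t, 0] (by
      rw [Fin.sum_univ_three]
      simpa using h2)
    exact ⟨by simpa using hli' 0, by simpa using hli' 1⟩
  have hspan : LinearMap.range W = Submodule.span K (Set.range ![W A₀, W A₁]) := by
    symm
    apply Submodule.eq_of_le_of_finrank_le
    · rw [Submodule.span_le]
      rintro _ ⟨i, rfl⟩
      fin_cases i
      · exact ⟨A₀, rfl⟩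
      · exact ⟨A₁, rfl⟩
    · rw [finrank_span_eq_card hind]
      exact hW
  have h1 : W A ∈ Submodule.span K (Set.range ![W A₀, W A₁]) := by
    rw [← hspan]; exact ⟨A, rfl⟩
  rw [Matrix.range_cons, Matrix.range_cons, Matrix.range_empty, Set.union_empty,
    Set.singleton_union, Submodule.mem_span_pair] at h1
  obtain ⟨α, β, h⟩ := h1
  refine ⟨α, β, fun i => ?_⟩
  have e0 := congrArg Prod.fst h
  have e1 := congrArg Prod.snd h
  fin_cases i
  · exact e0.symm
  · exact e1.symm

end alg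

variable {K : Type} [Field K] {n c : ℕ} {d : Fin c → ℕ} {D : DSys K n c d}
  {x : Fin (n + 1) → K} {j0 : Fin (n + 1)}
  {t : Fin (2 + 1) → Fin (n + 1)} {P : Fin (2 + 1) → Fin (n + 1) → K}

/-! ### forms which vanish at the point -/

theorem aeval_pt [CharZero K] {G : MvPolynomial (Fin (n + 1)) K} {e : ℕ}
    (hG : G.IsHomogeneous e) :
    aeval (fun k => C (x k) * X j0 : Fin (n + 1) → MvPolynomial (Fin (n + 1)) K) G =
      C (eval x G) * X j0 ^ e := by
  apply MvPolynomial.funext
  intro z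
  have h1 : eval z (aeval (fun k => C (x k) * X j0 :
      Fin (n + 1) → MvPolynomial (Fin (n + 1)) K) G) = eval (fun k => z j0 * x k) G := by
    rw [aeval_def, ← coe_eval₂Hom, ← RingHom.comp_apply, comp_eval₂Hom, coe_eval₂Hom]
    rw [eval, coe_eval₂Hom]
    have h2 : ((eval₂Hom (RingHom.id K) z).comp (algebraMap K (MvPolynomial (Fin (n + 1)) K))) =
        RingHom.id K := by
      ext a
      simp
    have h3 : (fun i => (eval₂Hom (RingHom.id K) z) (C (x i) * X j0)) =
        (fun k => z j0 * x k) := by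
      funext k
      simp only [map_mul, coe_eval₂Hom, eval₂_X, eval₂_C, RingHom.id_apply]
      ring
    simp only [coe_eval₂Hom] at h3
    rw [h2, h3]
    rfl
  rw [h1, H54.eval_smul_form hG, map_mul, eval_C, map_pow, eval_X]
  ring

/-- a linear statement on the forms which vanish at `x` -/
theorem of_pt [CharZero K] {e : ℕ} {Y : Type} [AddCommGroup Y] [Module K Y]
    (T : MvPolynomial (Fin (n + 1)) K →ₗ[K] Y) (N : Submodule K Y)
    (h : ∀ k B, B.IsHomogeneous e → T (B * lf x j0 k) ∈ N)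
    {G : MvPolynomial (Fin (n + 1)) K} (hG : G.IsHomogeneous (e + 1)) (h0 : eval x G = 0) :
    T G ∈ N := by
  refine of_products (L := fun k => C (x k) * X j0) ?_ T N ?_ hG ?_
  · intro k
    have h := (isHomogeneous_C (Fin (n + 1)) (x k)).mul (isHomogeneous_X K j0)
    rwa [zero_add] at h
  · intro k B hB
    rw [mul_comm]
    exact h k B hB
  · rw [aeval_pt hG, h0, C_0, zero_mul]

/-- a form minus its value times the power of `X_j0` -/
theorem hom_sub_pow {G : MvPolynomial (Fin (n + 1)) K} {e : ℕ} (hG : G.IsHomogeneous e) :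
    (G - C (eval x G) * X j0 ^ e).IsHomogeneous e := by
  have h := (isHomogeneous_C (Fin (n + 1)) (eval x G)).mul (isHomogeneous_X_pow j0 e)
  rw [zero_add] at h
  exact hG.sub h

theorem eval_sub_pow (hx : x j0 = 1) (G : MvPolynomial (Fin (n + 1)) K) (e : ℕ) :
    eval x (G - C (eval x G) * X j0 ^ e) = 0 := by
  rw [map_sub, map_mul, eval_C, map_pow, eval_X, hx, one_pow, mul_one, sub_self]

/-- a linear map on the forms of degree `e`, zero on the forms which vanish at `x` -/
theorem val_of_zero (hx : x j0 = 1) {e : ℕ} {Y : Type} [AddCommGroup Y] [Module K Y]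
    (T : MvPolynomial (Fin (n + 1)) K →ₗ[K] Y)
    (h : ∀ G : MvPolynomial (Fin (n + 1)) K, G.IsHomogeneous e → eval x G = 0 → T G = 0)
    {G : MvPolynomial (Fin (n + 1)) K} (hG : G.IsHomogeneous e) :
    T G = eval x G • T (X j0 ^ e) := by
  have h1 := h _ (hom_sub_pow (x := x) (j0 := j0) hG) (eval_sub_pow hx G e)
  rw [map_sub, sub_eq_zero, ← smul_eq_C_mul, map_smul] at h1
  exact h1

/-! ### the rank of the space of all `V(A nf_i)` -/

theorem nf_eval (hx : x j0 = 1) (i : Fin 2) : eval x (nf x j0 t i) = 0 := by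
  unfold nf lf
  rw [map_sub, map_mul, eval_X, eval_X, eval_C, hx, mul_one, sub_self]

theorem vv_single (d2 : ∀ m, 2 ≤ d m) (m : Fin c) {B : MvPolynomial (Fin (n + 1)) K}
    (hB : B.IsHomogeneous (d m - 1)) (i : Fin 2) :
    vv D x j0 t i ⟨Pi.single m B, single_adm d2 m hB⟩ = D.V x m (B * nf x j0 t i) := by
  rw [vv_apply, mulT_single, VT_single]

theorem V_zero_mem [CharZero K] (d2 : ∀ m, 2 ≤ d m) (hx : x j0 = 1) (ch : Cht x j0 t P)
    (van : ∀ A : TP K n c, Adm d A → ∀ f, Sharp.VT D x (mulT A (lam t P f)) = 0)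
    (m : Fin c) {G : MvPolynomial (Fin (n + 1)) K} (hG : G.IsHomogeneous (d m))
    (h0 : eval x G = 0) :
    D.V x m G ∈ LinearMap.range (vv D x j0 t 0) ⊔ LinearMap.range (vv D x j0 t 1) := by
  have hd : d m - 1 + 1 = d m := by have := d2 m; omega
  rw [← hd] at hG
  refine of_pt (j0 := j0) (e := d m - 1) (D.V x m) _ (fun k B hB => ?_) hG h0
  rw [V_lf d2 hx ch van m hB]
  refine Submodule.add_mem_sup (Submodule.smul_mem _ _ ?_) (Submodule.smul_mem _ _ ?_)
  · exact ⟨_, vv_single d2 m hB 0⟩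
  · exact ⟨_, vv_single d2 m hB 1⟩

theorem rank_U [CharZero K] (hn : n = c + 3) (d2 : ∀ m, 2 ≤ d m) (hx : x j0 = 1)
    (ch : Cht x j0 t P) (w0 : ∀ p q, Sharp.WT D x p q ∈ Submodule.span K {x})
    (van : ∀ A : TP K n c, Adm d A → ∀ f, Sharp.VT D x (mulT A (lam t P f)) = 0) :
    3 ≤ finrank K (LinearMap.range (vv D x j0 t 0) ⊔ LinearMap.range (vv D x j0 t 1) :
      Submodule K (Fin (n + 1) → K)) := by
  classical
  set N := LinearMap.range (vv D x j0 t 0) ⊔ LinearMap.range (vv D x j0 t 1) with hN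
  set V0 : Fin c → Fin (n + 1) → K := fun m => D.V x m (X j0 ^ d m) with hV0
  have hV : ∀ m, ∀ G : MvPolynomial (Fin (n + 1)) K, G.IsHomogeneous (d m) →
      D.V x m G ∈ Submodule.span K (Set.range V0) ⊔ N := by
    intro m G hG
    have e1 : G = (eval x G) • X j0 ^ d m + (G - C (eval x G) * X j0 ^ d m) := by
      rw [smul_eq_C_mul]
      ring
    have h2 : D.V x m (G - C (eval x G) * X j0 ^ d m) ∈ N :=
      V_zero_mem d2 hx ch van m (hom_sub_pow hG) (eval_sub_pow hx G _)
    rw [e1, map_add, map_smul]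
    exact Submodule.add_mem_sup (Submodule.smul_mem _ _ (Submodule.subset_span ⟨m, rfl⟩)) h2
  have htop : (⊤ : Submodule K (Fin (n + 1) → K)) ≤
      Submodule.span K {x} ⊔ (Submodule.span K (Set.range V0) ⊔ N) := by
    have hs : ∀ p, (Pi.single p 1 : Fin (n + 1) → K) ∈
        Submodule.span K {x} ⊔ (Submodule.span K (Set.range V0) ⊔ N) := by
      intro p
      have h1 := w0 p j0
      unfold Sharp.WT at h1
      rw [hx, one_smul] at h1
      have h2 : ∀ m, (X j0 * pderiv p (D.F m) : MvPolynomial (Fin (n + 1)) K).IsHomogeneous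
          (d m) := by
        intro m
        have h := (isHomogeneous_X K j0).mul ((D.hom m).pderiv (i := p))
        have hd : 1 + (d m - 1) = d m := by have := d2 m; omega
        rw [hd] at h
        exact h
      have h3 : (Pi.single p 1 : Fin (n + 1) → K) =
          (Pi.single p 1 + Sharp.VT D x fun m => X j0 * pderiv p (D.F m)) +
            (-(Sharp.VT D x fun m => X j0 * pderiv p (D.F m))) := by
        abel
      rw [h3]
      refine Submodule.add_mem_sup h1 (Submodule.neg_mem _ ?_)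
      rw [Sharp.VT_apply]
      exact Submodule.sum_mem _ fun m _ => hV m _ (h2 m)
    intro u _
    have h4 : u = ∑ p, u p • (Pi.single p 1 : Fin (n + 1) → K) := by
      funext q
      rw [Finset.sum_apply]
      simp [Pi.single_apply]
    rw [h4]
    exact Submodule.sum_mem _ fun p _ => Submodule.smul_mem _ _ (hs p)
  have h5 := Submodule.finrank_mono htop
  rw [finrank_top, Module.finrank_fin_fun] at h5
  have h6 := Submodule.finrank_add_le_finrank_add_finrank (Submodule.span K {x})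
    (Submodule.span K (Set.range V0) ⊔ N)
  have h7 := Submodule.finrank_add_le_finrank_add_finrank (Submodule.span K (Set.range V0)) N
  have h8 : finrank K (Submodule.span K {x}) ≤ 1 := le_trans (finrank_span_le_card {x}) (by simp)
  have h9 : finrank K (Submodule.span K (Set.range V0)) ≤ c := by
    have h := finrank_range_le_card (R := K) V0
    rwa [Set.finrank, Fintype.card_fin] at h
  omega

/-! ### the derivatives of the equations -/

/-- the tuple `(d_v F_m)_m` -/
noncomputable def Fv (D : DSys K n c d) (v : Fin (n + 1) → K) : TP K n c :=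
  fun m => ∑ p, C (v p) * pderiv p (D.F m)

theorem Fv_adm (d2 : ∀ m, 2 ≤ d m) (v : Fin (n + 1) → K) : Adm d (Fv D v) := by
  refine adm_of_hom d2 fun m => ?_
  unfold Fv
  refine IsHomogeneous.sum _ _ _ fun p _ => ?_
  have h := (isHomogeneous_C (Fin (n + 1)) (v p)).mul ((D.hom m).pderiv (i := p))
  rwa [zero_add] at h

theorem vv_Fv (hx : x j0 = 1) (d2 : ∀ m, 2 ≤ d m)
    (w0 : ∀ p q, Sharp.WT D x p q ∈ Submodule.span K {x}) (v : Fin (n + 1) → K) (i : Fin 2) :
    vv D x j0 t i ⟨Fv D v, Fv_adm d2 v⟩ = 0 := by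
  rw [vv_apply]
  refine zero_of_span hx ?_ (VT_j0 hx _)
  have e : mulT (Fv D v) (nf x j0 t i) = ∑ p, v p • ((fun m => X (t i.succ) * pderiv p (D.F m)) -
      x (t i.succ) • fun m => X j0 * pderiv p (D.F m) : TP K n c) := by
    funext m
    rw [Finset.sum_apply]
    unfold mulT Fv nf lf
    rw [Finset.sum_mul]
    refine Finset.sum_congr rfl fun p _ => ?_
    rw [Pi.smul_apply, Pi.sub_apply, Pi.smul_apply, smul_eq_C_mul, smul_eq_C_mul]
    ring
  have e2 : ∀ p, Sharp.VT D x ((fun m => X (t i.succ) * pderiv p (D.F m)) -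
      x (t i.succ) • fun m => X j0 * pderiv p (D.F m) : TP K n c) =
      Sharp.WT D x p (t i.succ) - x (t i.succ) • Sharp.WT D x p j0 := by
    intro p
    unfold Sharp.WT
    rw [map_sub, map_smul, hx, smul_add, smul_smul, mul_one]
    abel
  show Sharp.VT D x (mulT (Fv D v) (nf x j0 t i)) ∈ _
  rw [e, map_sum]
  refine Submodule.sum_mem _ fun p _ => ?_
  rw [map_smul, e2]
  exact Submodule.smul_mem _ _ (Submodule.sub_mem _ (w0 _ _) (Submodule.smul_mem _ _ (w0 _ _)))

theorem Fv_val (h0 : ∀ m, eval x (D.F m) = 0) (hx : x j0 = 1) (m m' : Fin c) :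
    eval x (Fv D (D.V x m' (X j0 ^ d m')) m) = if m = m' then -1 else 0 := by
  have h1 := Sharp.grad_VT D x h0 (Pi.single m' (X j0 ^ d m')) (fun m => by
    by_cases h : m = m'
    · subst h
      rw [Pi.single_eq_same]
      exact isHomogeneous_X_pow j0 _
    · rw [Pi.single_eq_of_ne h]
      exact isHomogeneous_zero _ _ _) m
  rw [VT_single] at h1
  unfold Fv
  rw [map_sum]
  have h2 : ∑ p, eval x (C (D.V x m' (X j0 ^ d m') p) * pderiv p (D.F m)) =
      ∑ p, eval x (pderiv p (D.F m)) * D.V x m' (X j0 ^ d m') p :=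
    Finset.sum_congr rfl fun p _ => by rw [map_mul, eval_C, mul_comm]
  rw [h2, h1]
  by_cases h : m = m'
  · subst h
    rw [Pi.single_eq_same, map_pow, eval_X, hx, one_pow, if_pos rfl]
  · rw [Pi.single_eq_of_ne h, map_zero, neg_zero, if_neg h]

/-- some product `C nf_0 nf_1` moves the point -/
theorem exists_C [CharZero K] (d2 : ∀ m, 2 ≤ d m) (hx : x j0 = 1)
    (h0 : ∀ m, eval x (D.F m) = 0) (ch : Cht x j0 t P)
    (w0 : ∀ p q, Sharp.WT D x p q ∈ Submodule.span K {x})
    (van : ∀ A : TP K n c, Adm d A → ∀ f, Sharp.VT D x (mulT A (lam t P f)) = 0)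
    (hL : ∀ a : Fin 2 → K, a ≠ 0 → 2 ≤ finrank K (LinearMap.range (cv (vv D x j0 t) a)))
    (hW : finrank K (LinearMap.range ((vv D x j0 t 0).prod (vv D x j0 t 1))) ≤ 2) :
    ∃ (m : Fin c) (B : MvPolynomial (Fin (n + 1)) K), B.IsHomogeneous (d m - 2) ∧
      D.V x m (B * nf x j0 t 0 * nf x j0 t 1) ≠ 0 := by
  by_contra hcon
  push Not at hcon
  have hB1 : ∀ (m : Fin c) (j : Fin 2) {B : MvPolynomial (Fin (n + 1)) K},
      B.IsHomogeneous (d m - 2) → (B * nf x j0 t j).IsHomogeneous (d m - 1) := by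
    intro m j B hB
    have h := hB.mul (nf_hom1 x j0 t j)
    have hd : d m - 2 + 1 = d m - 1 := by have := d2 m; omega
    rwa [hd] at h
  have hz : ∀ m (B : MvPolynomial (Fin (n + 1)) K), B.IsHomogeneous (d m - 2) → ∀ i j,
      D.V x m (B * nf x j0 t j * nf x j0 t i) = 0 := by
    intro m B hB i
    have e0 : ∀ i j, vv D x j0 t i
        ⟨Pi.single m (B * nf x j0 t j), single_adm d2 m (hB1 m j hB)⟩ =
        D.V x m (B * nf x j0 t j * nf x j0 t i) := fun i j => vv_single d2 m (hB1 m j hB) i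
    have e1 : B * nf x j0 t 1 * nf x j0 t 0 = B * nf x j0 t 0 * nf x j0 t 1 := by ring
    refine Fin.forall_fin_two.2 ⟨?_, ?_⟩
    · rw [← e0]
      refine ker_cv hL hW ![0, 1] (by simp) _ ?_ i
      rw [cv_apply, e0 0 0, e0 1 0, hcon m B hB]
      simp
    · rw [← e0]
      refine ker_cv hL hW ![1, 0] (by simp) _ ?_ i
      rw [cv_apply, e0 0 1, e0 1 1, e1, hcon m B hB]
      simp
  have h1 : ∀ m i (A : MvPolynomial (Fin (n + 1)) K), A.IsHomogeneous (d m - 1) →
      eval x A = 0 → ((D.V x m).comp (LinearMap.mulRight K (nf x j0 t i))) A = 0 := by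
    intro m i A hA h0
    have hd : d m - 2 + 1 = d m - 1 := by have := d2 m; omega
    rw [← hd] at hA
    have := of_pt (j0 := j0) (e := d m - 2) ((D.V x m).comp
      (LinearMap.mulRight K (nf x j0 t i))) ⊥ (fun k B hB => ?_) hA h0
    · exact this
    · rw [Submodule.mem_bot]
      show D.V x m (B * lf x j0 k * nf x j0 t i) = 0
      have e : B * lf x j0 k * nf x j0 t i = (B * nf x j0 t i) * lf x j0 k := by ring
      rw [e, V_lf d2 hx ch van m (hB1 m i hB), hz m B hB 0 i, hz m B hB 1 i, smul_zero,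
        smul_zero, add_zero]
  have h2 : ∀ i (A : AdS K n d), vv D x j0 t i A =
      ∑ m, eval x (A.1 m) • D.V x m (X j0 ^ (d m - 1) * nf x j0 t i) := by
    intro i A
    rw [vv_apply, Sharp.VT_apply]
    refine Finset.sum_congr rfl fun m _ => ?_
    exact val_of_zero hx ((D.V x m).comp (LinearMap.mulRight K (nf x j0 t i))) (h1 m i)
      (hom_of_adm A.2 m)
  have h3 : ∀ m i, D.V x m (X j0 ^ (d m - 1) * nf x j0 t i) = 0 := by
    intro m i
    have e1 := vv_Fv (t := t) hx d2 w0 (D.V x m (X j0 ^ d m)) i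
    rw [h2] at e1
    simp only [Fv_val h0 hx] at e1
    rw [Finset.sum_eq_single m] at e1
    · rwa [if_pos rfl, neg_smul, one_smul, neg_eq_zero] at e1
    · intro m' _ hm
      rw [if_neg hm, zero_smul]
    · intro h; exact absurd (Finset.mem_univ _) h
  have h4 : vv D x j0 t 0 = 0 := by
    refine LinearMap.ext fun A => ?_
    rw [h2]
    simp only [h3, smul_zero, Finset.sum_const_zero]
    rfl
  have h5 := hL ![1, 0] (by simp)
  have h6 : cv (vv D x j0 t) ![1, 0] = 0 := by
    refine LinearMap.ext fun A => ?_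
    rw [cv_apply, h4]
    simp
  rw [h6, LinearMap.range_zero, finrank_bot] at h5
  omega

/-- The degenerate case: the variation of the multiples of `nf_i nf_j`. -/
theorem kron [CharZero K] (hn : n = c + 3) (d2 : ∀ m, 2 ≤ d m) (hx : x j0 = 1)
    (h0 : ∀ m, eval x (D.F m) = 0) (ch : Cht x j0 t P)
    (w0 : ∀ p q, Sharp.WT D x p q ∈ Submodule.span K {x})
    (van : ∀ A : TP K n c, Adm d A → ∀ f, Sharp.VT D x (mulT A (lam t P f)) = 0)
    (hL : ∀ a : Fin 2 → K, a ≠ 0 → 2 ≤ finrank K (LinearMap.range (cv (vv D x j0 t) a)))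
    (hW : finrank K (LinearMap.range ((vv D x j0 t 0).prod (vv D x j0 t 1))) ≤ 2) :
    ∃ (m1 : Fin c) (ω : Fin c → K) (τ : Fin c → Fin 2 → K)
      (T : Fin 2 → Fin 2 → Fin (n + 1) → K), ω m1 ≠ 0 ∧ T 1 0 = T 0 1 ∧
      LinearIndependent K ![T 0 0, T 0 1, T 1 1] ∧
      (∀ m (B : MvPolynomial (Fin (n + 1)) K), B.IsHomogeneous (d m - 2) → ∀ i j,
        D.V x m (B * nf x j0 t j * nf x j0 t i) = (eval x B * ω m) • T i j) ∧
      ∀ m i, D.V x m (X j0 ^ (d m - 1) * nf x j0 t i) = τ m 0 • T 0 i + τ m 1 • T 1 i := by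
  classical
  have hU := rank_U hn d2 hx ch w0 van
  obtain ⟨m1, B₀, hB₀, hne⟩ := exists_C d2 hx h0 ch w0 van hL hW
  have hnf : ∀ i, (nf x j0 t i).IsHomogeneous 1 := fun i => nf_hom1 x j0 t i
  have hB1 : ∀ (m : Fin c) (j : Fin 2) (B : MvPolynomial (Fin (n + 1)) K),
      B.IsHomogeneous (d m - 2) → (B * nf x j0 t j).IsHomogeneous (d m - 1) := by
    intro m j B hB
    have h := hB.mul (nf_hom1 x j0 t j)
    have hd : d m - 2 + 1 = d m - 1 := by have := d2 m; omega
    rwa [hd] at h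
  -- the tuples `B nf_j e_m`
  let b : (m : Fin c) → Fin 2 → (B : MvPolynomial (Fin (n + 1)) K) → B.IsHomogeneous (d m - 2) →
      AdS K n d := fun m j B hB => ⟨Pi.single m (B * nf x j0 t j), single_adm d2 m (hB1 m j B hB)⟩
  have hb : ∀ m i j B hB, vv D x j0 t i (b m j B hB) =
      D.V x m (B * nf x j0 t j * nf x j0 t i) := fun m i j B hB => vv_single d2 m (hB1 m j B hB) i
  have hsym : ∀ m B hB, vv D x j0 t 0 (b m 1 B hB) = vv D x j0 t 1 (b m 0 B hB) := by
    intro m B hB
    rw [hb m 0 1 B hB, hb m 1 0 B hB]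
    congr 1
    ring
  obtain ⟨hli, -, hc⟩ := pencil hL hU hW (b m1 0 B₀ hB₀) (b m1 1 B₀ hB₀) (hsym m1 B₀ hB₀)
    (by rw [hb m1 1 0 B₀ hB₀]; exact hne)
  have hdec := dec hW (b m1 0 B₀ hB₀) (b m1 1 B₀ hB₀) hli
  let T : Fin 2 → Fin 2 → Fin (n + 1) → K := fun i j => vv D x j0 t i (b m1 j B₀ hB₀)
  have hTs : T 1 0 = T 0 1 := (hsym m1 B₀ hB₀).symm
  have hTli : LinearIndependent K ![T 0 0, T 0 1, T 1 1] := hli
  have hcT : ∀ m B, B.IsHomogeneous (d m - 2) → ∃ r : K, ∀ i j,
      D.V x m (B * nf x j0 t j * nf x j0 t i) = r • T i j := by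
    intro m B hB
    obtain ⟨r, hr⟩ := hc (b m 0 B hB) (b m 1 B hB) (hsym m B hB)
    refine ⟨r, fun i j => ?_⟩
    rw [← hb m i j B hB]
    fin_cases j
    · exact (hr i).2
    · exact (hr i).1
  -- products of three forms
  have h3 : ∀ m, 3 ≤ d m → ∀ (C' : MvPolynomial (Fin (n + 1)) K)
      (_ : C'.IsHomogeneous (d m - 3)) (i j k : Fin 2),
      D.V x m (C' * nf x j0 t k * nf x j0 t j * nf x j0 t i) = 0 := by
    intro m hm C' hC
    have hCk : ∀ k, (C' * nf x j0 t k).IsHomogeneous (d m - 2) := by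
      intro k
      have h := hC.mul (hnf k)
      have hd : d m - 3 + 1 = d m - 2 := by omega
      rwa [hd] at h
    obtain ⟨c0, hc0⟩ := hcT m _ (hCk 0)
    obtain ⟨c1, hc1⟩ := hcT m _ (hCk 1)
    have e : c0 • T 0 1 = c1 • T 0 0 := by
      rw [← hc0, ← hc1]
      congr 1
      ring
    have hli' := Fintype.linearIndependent_iff.1 hTli ![-c1, c0, 0] (by
      rw [Fin.sum_univ_three]
      simp only [Matrix.cons_val_zero, Matrix.cons_val_one, Matrix.cons_val_two,
        Matrix.tail_cons, Matrix.head_cons, zero_smul, add_zero]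
      rw [e, neg_smul, neg_add_cancel])
    have z0 : c0 = 0 := by simpa using hli' 1
    have z1 : c1 = 0 := by simpa using hli' 0
    intro i j k
    fin_cases k
    · exact (hc0 i j).trans (by rw [z0, zero_smul])
    · exact (hc1 i j).trans (by rw [z1, zero_smul])
  have h4 : ∀ m (i j : Fin 2) (B : MvPolynomial (Fin (n + 1)) K), B.IsHomogeneous (d m - 2) →
      eval x B = 0 → ((D.V x m).comp (LinearMap.mulRight K (nf x j0 t j * nf x j0 t i))) B = 0 := by
    intro m i j B hB h0
    by_cases hm : 3 ≤ d m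
    · have hd : d m - 3 + 1 = d m - 2 := by omega
      rw [← hd] at hB
      have := of_pt (j0 := j0) (e := d m - 3) ((D.V x m).comp
        (LinearMap.mulRight K (nf x j0 t j * nf x j0 t i))) ⊥ (fun k C' hC => ?_) hB h0
      · exact this
      · rw [Submodule.mem_bot]
        show D.V x m (C' * lf x j0 k * (nf x j0 t j * nf x j0 t i)) = 0
        have e : C' * lf x j0 k * (nf x j0 t j * nf x j0 t i) =
            (C' * nf x j0 t j * nf x j0 t i) * lf x j0 k := by ring
        have hh : (C' * nf x j0 t j * nf x j0 t i).IsHomogeneous (d m - 1) := by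
          have h := (hC.mul (hnf j)).mul (hnf i)
          have hd : d m - 3 + 1 + 1 = d m - 1 := by omega
          rwa [hd] at h
        rw [e, V_lf d2 hx ch van m hh, h3 m hm C' hC 0 i j, h3 m hm C' hC 1 i j,
          smul_zero, smul_zero, add_zero]
    · have hd : d m - 2 = 0 := by omega
      rw [hd] at hB
      have h5 : B = C (coeff 0 B) := by
        rw [← totalDegree_eq_zero_iff_eq_C]
        exact Nat.le_zero.1 hB.totalDegree_le
      have h6 : coeff 0 B = 0 := by
        rw [h5, eval_C] at h0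
        exact h0
      rw [h5, h6, C_0, map_zero]
  have hω := hcT
  choose! r hr using hcT
  let ω : Fin c → K := fun m => r m (X j0 ^ (d m - 2))
  have h5 : ∀ m (B : MvPolynomial (Fin (n + 1)) K), B.IsHomogeneous (d m - 2) → ∀ i j,
      D.V x m (B * nf x j0 t j * nf x j0 t i) = (eval x B * ω m) • T i j := by
    intro m B hB i j
    have h6 := val_of_zero hx ((D.V x m).comp (LinearMap.mulRight K (nf x j0 t j * nf x j0 t i)))
      (h4 m i j) hB
    have h7 : D.V x m (B * (nf x j0 t j * nf x j0 t i)) =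
        eval x B • D.V x m (X j0 ^ (d m - 2) * (nf x j0 t j * nf x j0 t i)) := h6
    rw [mul_assoc, h7, ← mul_assoc, hr m _ (isHomogeneous_X_pow j0 _) i j, smul_smul]
  have hτ : ∀ m, ∃ q : Fin 2 → K, ∀ i, D.V x m (X j0 ^ (d m - 1) * nf x j0 t i) =
      q 0 • T 0 i + q 1 • T 1 i := by
    intro m
    have hX : (X j0 ^ (d m - 1) : MvPolynomial (Fin (n + 1)) K).IsHomogeneous (d m - 1) :=
      isHomogeneous_X_pow j0 _
    obtain ⟨α, β, h⟩ := hdec ⟨Pi.single m (X j0 ^ (d m - 1)), single_adm d2 m hX⟩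
    refine ⟨![α, β], fun i => ?_⟩
    have h6 := h i
    rw [vv_single d2 m hX i] at h6
    rw [h6]
    have e0 : T i 0 = T 0 i := by
      fin_cases i
      · rfl
      · exact hTs
    have e1 : T i 1 = T 1 i := by
      fin_cases i
      · exact hTs.symm
      · rfl
    show α • T i 0 + β • T i 1 = _
    rw [e0, e1]
    rfl
  choose τ hτ' using hτ
  refine ⟨m1, ω, τ, T, ?_, hTs, hTli, h5, hτ'⟩
  intro hz
  apply hne
  have h6 := h5 m1 B₀ hB₀ 1 0
  rw [hz, mul_zero, zero_smul] at h6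
  exact h6

end Pool.Agent.T2C.H6
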